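import Pool.Agent.H38.Tre.Defs

set_option maxHeartbeats 40000
namespace H38Tre

noncomputable def allB (f : Nat → Bool) (n : Nat) : Bool :=
  Nat.rec (motive := fun _ => Bool) true (fun k r => f k && r) n

theorem allB_spec (f : Nat → Bool) (n : Nat) (h : allB f n = true) : ∀ k < n, f k = true := by
  induction n with
  | zero => intro k hk; omega
  | succ n ih =>
    have h' : (f n && allB f n) = true := h
    rw [Bool.and_eq_true] at h'
    intro k hk
    rcases Nat.lt_succ_iff_lt_or_eq.1 hk with h1 | h1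
    · exact ih h'.2 k h1
    · rw [h1]; exact h'.1

noncomputable def all2 (f : Nat → Bool) : Bool :=
  allB (fun i => allB (fun j => f (Nat.add (Nat.mul 729 i) j)) 729) 27

theorem all2_spec (f : Nat → Bool) (h : all2 f = true) (m : Nat) (hm : m < 19683) : f m = true := by
  have h1 := allB_spec _ _ h (m / 729) (by omega)
  have h2 := allB_spec _ _ h1 (m % 729) (by omega)
  have e : Nat.add (Nat.mul 729 (m / 729)) (m % 729) = m := Nat.div_add_mod m 729
  rw [e] at h2
  exact h2

def rr (m j : Nat) : Nat :=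
  Nat.add (Nat.mod (Nat.div (Nat.sub (Nat.mul 2 m) 1) 3) 6561) (Nat.mul 6561 j)

def dbl (m : Nat) : Nat := Nat.mod (Nat.mul 2 m) 19683

noncomputable def chkLo (c : Nat → Nat) (A B D : Nat) : Bool :=
  all2 fun m => cond (Nat.beq (Nat.mod m 3) 2)
    (allB (fun j => Nat.ble (Nat.mul D (c m)) (Nat.add (Nat.mul A (c (dbl m))) (Nat.mul B (c (rr m j))))) 3)
    (Nat.ble (Nat.mul D (c m)) (Nat.mul A (c (dbl m))))

noncomputable def chkPos (c : Nat → Nat) : Bool :=
  all2 fun m => cond (Nat.beq (Nat.mod m 3) 0) (Nat.beq (c m) 0) (Nat.ble 1 (c m))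

noncomputable def chkUp (c : Nat → Nat) (A D : Nat) : Bool :=
  all2 fun m => Nat.ble 1 (c m) && cond (Nat.beq (Nat.mod m 3) 2)
    (allB (fun j => Nat.ble (Nat.mul D (Nat.add (c (dbl m)) (c (rr m j)))) (Nat.mul A (c m))) 3)
    (Nat.ble (Nat.mul D (c (dbl m))) (Nat.mul A (c m)))

/-- residue of an integer -/
def res (a : ℤ) : Nat := (a % 19683).toNat

theorem res_lt (a : ℤ) : res a < 19683 := by unfold res; omega

theorem res_mod (a : ℤ) : ((res a % 3 : Nat) : ℤ) = a % 3 := by unfold res; omega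

theorem rr_eq (m j : Nat) : rr m j = (2 * m - 1) / 3 % 6561 + 6561 * j := rfl

theorem res_cast (a : ℤ) : (res a : ℤ) = a % 19683 :=
  Int.toNat_of_nonneg (Int.emod_nonneg _ (by norm_num))

theorem dbl_eq (m : Nat) : dbl m = 2 * m % 19683 := rfl

theorem res_dbl (a : ℤ) : res (2 * a) = dbl (res a) := by
  have h : ((res (2 * a) : Nat) : ℤ) = ((dbl (res a) : Nat) : ℤ) := by
    rw [dbl_eq, res_cast]
    push_cast
    rw [res_cast, Int.mul_emod 2 (a % 19683), Int.emod_emod_of_dvd _ (dvd_refl _), ← Int.mul_emod]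
  exact_mod_cast h

theorem res_rr (a : ℤ) (h : a % 3 = 2) :
    ∃ j < 3, res ((2 * a - 1) / 3) = rr (res a) j := by
  obtain ⟨b, hb⟩ : ∃ b, b = (2 * a - 1) / 3 := ⟨_, rfl⟩
  rw [← hb]
  have hb5 : 3 * b = 2 * a - 1 := by omega
  have hs := res_cast b
  have hm := res_cast a
  have hm5 := res_mod a
  have hl := res_lt b
  generalize res b = s at *
  generalize res a = m at *
  obtain ⟨r, hr⟩ : ∃ r, r = (2 * m - 1) / 3 := ⟨_, rfl⟩
  have hr5 : 3 * r + 1 = 2 * m := by omega
  have hq := Int.emod_add_mul_ediv a 19683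
  have e1 : b = (r : ℤ) + 6561 * (2 * (a / 19683)) := by
    have : (3 : ℤ) * r + 1 = 2 * m := by exact_mod_cast hr5
    rw [← hm] at hq
    linarith
  have e2 : (s : ℤ) % 6561 = (r : ℤ) % 6561 := by
    rw [hs, Int.emod_emod_of_dvd _ (by norm_num), e1, Int.add_mul_emod_self_left]
  have e3 : s % 6561 = r % 6561 := by exact_mod_cast e2
  refine ⟨s / 6561, (Nat.div_lt_iff_lt_mul (by norm_num)).2 hl, ?_⟩
  rw [rr_eq, ← hr, ← e3]
  exact (Nat.mod_add_div s 6561).symm

theorem lo_spec (c : Nat → Nat) (A B D : Nat) (h : chkLo c A B D = true) (a : ℤ) :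
    (a % 3 = 2 → D * c (res a) ≤ A * c (res (2 * a)) + B * c (res ((2 * a - 1) / 3))) ∧
    (a % 3 ≠ 2 → D * c (res a) ≤ A * c (res (2 * a))) := by
  have h1 := all2_spec _ h (res a) (res_lt a)
  have hm := res_mod a
  constructor
  · intro h3
    have e : Nat.beq (Nat.mod (res a) 3) 2 = true := by
      rw [Nat.beq_eq]; show res a % 3 = 2; omega
    obtain ⟨j, hj, ej⟩ := res_rr a h3
    simp only [e, cond_true] at h1
    have h2 := allB_spec _ _ h1 j hj
    rw [Nat.ble_eq] at h2
    rw [res_dbl, ej]; exact h2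
  · intro h3
    have e : Nat.beq (Nat.mod (res a) 3) 2 = false := by
      rw [Bool.eq_false_iff, Ne, Nat.beq_eq]; show ¬ res a % 3 = 2; omega
    simp only [e, cond_false] at h1
    rw [Nat.ble_eq] at h1
    rw [res_dbl]; exact h1

theorem pos_spec (c : Nat → Nat) (h : chkPos c = true) (a : ℤ) :
    (a % 3 ≠ 0 → 1 ≤ c (res a)) ∧ (a % 3 = 0 → c (res a) = 0) := by
  have h1 := all2_spec _ h (res a) (res_lt a)
  have hm := res_mod a
  constructor
  · intro h3
    have e : Nat.beq (Nat.mod (res a) 3) 0 = false := by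
      rw [Bool.eq_false_iff, Ne, Nat.beq_eq]; show ¬ res a % 3 = 0; omega
    simp only [e, cond_false] at h1
    rw [Nat.ble_eq] at h1
    exact h1
  · intro h3
    have e : Nat.beq (Nat.mod (res a) 3) 0 = true := by
      rw [Nat.beq_eq]; show res a % 3 = 0; omega
    simp only [e, cond_true] at h1
    rw [Nat.beq_eq] at h1
    exact h1

theorem up_spec (c : Nat → Nat) (A D : Nat) (h : chkUp c A D = true) (a : ℤ) :
    1 ≤ c (res a) ∧
    (a % 3 = 2 → D * (c (res (2 * a)) + c (res ((2 * a - 1) / 3))) ≤ A * c (res a)) ∧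
    (a % 3 ≠ 2 → D * c (res (2 * a)) ≤ A * c (res a)) := by
  have h0 := all2_spec _ h (res a) (res_lt a)
  have hm := res_mod a
  rw [Bool.and_eq_true, Nat.ble_eq] at h0
  obtain ⟨h0, h1⟩ := h0
  refine ⟨h0, ?_, ?_⟩
  · intro h3
    have e : Nat.beq (Nat.mod (res a) 3) 2 = true := by
      rw [Nat.beq_eq]; show res a % 3 = 2; omega
    obtain ⟨j, hj, ej⟩ := res_rr a h3
    simp only [e, cond_true] at h1
    have h2 := allB_spec _ _ h1 j hj
    rw [Nat.ble_eq] at h2
    rw [res_dbl, ej]; exact h2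
  · intro h3
    have e : Nat.beq (Nat.mod (res a) 3) 2 = false := by
      rw [Bool.eq_false_iff, Ne, Nat.beq_eq]; show ¬ res a % 3 = 2; omega
    simp only [e, cond_false] at h1
    rw [Nat.ble_eq] at h1
    rw [res_dbl]; exact h1

end H38Tre
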