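import Mathlib

namespace H38Tre

/-- The 3x+1 map on the integers. -/
def T3 (n : ℤ) : ℤ := if n % 2 = 0 then n / 2 else (3 * n + 1) / 2

end H38Tre
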