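import Pool.Agent.H38.Tre.TB
import Pool.Agent.H38.Tre.TC

set_option maxHeartbeats 100000
namespace H38Tre

theorem T3_dbl (a : ℤ) : T3 (2 * a) = a := by
  unfold T3; rw [if_pos (by omega)]; omega

theorem T3_odd (a : ℤ) (h : a % 3 = 2) : T3 ((2 * a - 1) / 3) = a := by
  unfold T3; rw [if_neg (by omega)]; omega

theorem T3_pre (u a : ℤ) (h : T3 u = a) : u = 2 * a ∨ (a % 3 = 2 ∧ u = (2 * a - 1) / 3) := by
  unfold T3 at h; split_ifs at h <;> omega

def G (P : ℤ → Prop) (k : ℕ) (a : ℤ) : Set ℤ := {n | P n ∧ T3^[k] n = a}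

theorem G_zero (P : ℤ → Prop) (a : ℤ) : G P 0 a ⊆ {a} := fun n hn => hn.2

theorem G_succ3 (P : ℤ → Prop) (k : ℕ) (a : ℤ) (h : a % 3 = 2) :
    G P (k + 1) a = G P k (2 * a) ∪ G P k ((2 * a - 1) / 3) := by
  ext n
  simp only [G, Set.mem_setOf_eq, Set.mem_union, Function.iterate_succ_apply']
  constructor
  · rintro ⟨p, e⟩; rcases T3_pre _ _ e with e | e
    · exact Or.inl ⟨p, e⟩
    · exact Or.inr ⟨p, e.2⟩
  · rintro (⟨p, e⟩ | ⟨p, e⟩)
    · exact ⟨p, by rw [e]; exact T3_dbl a⟩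
    · exact ⟨p, by rw [e]; exact T3_odd a h⟩

theorem G_succn (P : ℤ → Prop) (k : ℕ) (a : ℤ) (h : a % 3 ≠ 2) :
    G P (k + 1) a = G P k (2 * a) := by
  ext n
  simp only [G, Set.mem_setOf_eq, Function.iterate_succ_apply']
  constructor
  · rintro ⟨p, e⟩; rcases T3_pre _ _ e with e | e
    · exact ⟨p, e⟩
    · exact absurd e.1 h
  · rintro ⟨p, e⟩; exact ⟨p, by rw [e]; exact T3_dbl a⟩

theorem G_fin (P : ℤ → Prop) (k : ℕ) : ∀ a, (G P k a).Finite := by
  induction k with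
  | zero => intro a; exact (Set.finite_singleton a).subset (G_zero P a)
  | succ k ih =>
    intro a
    by_cases h : a % 3 = 2
    · rw [G_succ3 P k a h]; exact (ih _).union (ih _)
    · rw [G_succn P k a h]; exact ih _

theorem G_card3 (P : ℤ → Prop) (k : ℕ) (a : ℤ) (h : a % 3 = 2) :
    (G P (k + 1) a).ncard = (G P k (2 * a)).ncard + (G P k ((2 * a - 1) / 3)).ncard := by
  rw [G_succ3 P k a h]
  refine Set.ncard_union_eq ?_ (G_fin _ _ _) (G_fin _ _ _)
  rw [Set.disjoint_left]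
  intro n h1 h2
  have e1 : T3^[k] n = 2 * a := h1.2
  have e2 : T3^[k] n = (2 * a - 1) / 3 := h2.2
  omega

theorem depth_lo (P : ℤ → Prop) (hP : ∀ a : ℤ, 1 ≤ a → a % 3 ≠ 0 → P a) (t : ℕ → ℕ)
    (ht : chkLo t 100000 100000 133196 = true) (hz : chkPos t = true) (hlt : ∀ m, t m ≤ 16777216)
    (k : ℕ) : ∀ a : ℤ, 1 ≤ a →
      t (res a) * 133196 ^ k ≤ 16777216 * 100000 ^ k * (G P k a).ncard := by
  induction k with
  | zero =>
    intro a ha
    by_cases h : a % 3 = 0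
    · rw [(pos_spec t hz a).2 h]; simp
    · have : 0 < (G P 0 a).ncard := (Set.ncard_pos (G_fin P 0 a)).2 ⟨a, hP a ha h, rfl⟩
      have h2 := hlt (res a)
      simp only [pow_zero, mul_one]
      exact h2.trans (Nat.le_mul_of_pos_right _ this)
  | succ k ih =>
    intro a ha
    have i2 := ih (2 * a) (by omega)
    by_cases h : a % 3 = 2
    · have e := Nat.mul_le_mul_right (133196 ^ k) ((lo_spec t _ _ _ ht a).1 h)
      have ib := ih ((2 * a - 1) / 3) (by omega)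
      rw [G_card3 P k a h, pow_succ, pow_succ]
      linarith
    · have e := Nat.mul_le_mul_right (133196 ^ k) ((lo_spec t _ _ _ ht a).2 h)
      rw [G_succn P k a h, pow_succ, pow_succ]
      linarith

theorem depth_up (P : ℤ → Prop) (t : ℕ → ℕ) (ht : chkUp t 133522 100000 = true)
    (k : ℕ) : ∀ a : ℤ, 100000 ^ k * (G P k a).ncard ≤ t (res a) * 133522 ^ k := by
  induction k with
  | zero =>
    intro a
    have h1 := Set.ncard_le_ncard (G_zero P a) (Set.finite_singleton a)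
    rw [Set.ncard_singleton] at h1
    simp only [pow_zero, mul_one, one_mul]
    exact h1.trans (up_spec t _ _ ht a).1
  | succ k ih =>
    intro a
    have i2 := ih (2 * a)
    by_cases h : a % 3 = 2
    · have e := Nat.mul_le_mul_right (133522 ^ k) ((up_spec t _ _ ht a).2.1 h)
      have ib := ih ((2 * a - 1) / 3)
      rw [G_card3 P k a h, pow_succ, pow_succ]
      linarith
    · have e := Nat.mul_le_mul_right (133522 ^ k) ((up_spec t _ _ ht a).2.2 h)
      rw [G_succn P k a h, pow_succ, pow_succ]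
      linarith

theorem lower_main (P : ℤ → Prop) (hP : ∀ a : ℤ, 1 ≤ a → a % 3 ≠ 0 → P a) :
    ∃ c : ℝ, 0 < c ∧ ∀ a : ℤ, 1 ≤ a → ¬ (3 : ℤ) ∣ a → ∀ k : ℕ,
    c * (133196 / 100000 : ℝ) ^ k ≤ ((G P k a).ncard : ℝ) := by
  have h0 := tb_ok
  rw [Bool.and_eq_true] at h0
  refine ⟨1 / 16777216, by norm_num, fun a ha1 ha k => ?_⟩
  have h1 := depth_lo P hP tb h0.1 h0.2 (fun m => (Nat.mod_lt _ (by norm_num)).le) k a ha1
  have h2 := (pos_spec tb h0.2 a).1 (by omega)
  have h3 : 133196 ^ k ≤ 16777216 * 100000 ^ k * (G P k a).ncard :=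
    le_trans (Nat.le_mul_of_pos_left _ h2) h1
  have h4 : (133196 : ℝ) ^ k ≤ 16777216 * 100000 ^ k * ((G P k a).ncard : ℝ) := by
    exact_mod_cast h3
  rw [div_pow, div_mul_div_comm, div_le_iff₀ (by positivity)]
  linarith

theorem upper_main (P : ℤ → Prop) : ∃ C : ℝ, ∀ a : ℤ, ∀ k : ℕ, (G P k a).Finite ∧
    ((G P k a).ncard : ℝ) ≤ C * (133522 / 100000 : ℝ) ^ k := by
  refine ⟨16777216, fun a k => ⟨G_fin P k a, ?_⟩⟩
  have h1 := depth_up P tc tc_ok k a
  have h2 : tc (res a) ≤ 16777216 := (Nat.mod_lt _ (by norm_num)).le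
  have h3 := le_trans h1 (Nat.mul_le_mul_right _ h2)
  have h4 : (100000 : ℝ) ^ k * ((G P k a).ncard : ℝ) ≤ 16777216 * 133522 ^ k := by
    exact_mod_cast h3
  rw [div_pow, ← mul_div_assoc, le_div_iff₀ (by positivity)]
  linarith

end H38Tre
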